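import Pool.Agent.Lib.Pc23f48.Meas
import Pool.Agent.Lib.Pc23f48.Induct

set_option autoImplicit false

open MeasureTheory Complex Filter Topology Polynomial
open scoped ENNReal ComplexConjugate

namespace Pool.Agent.Results.MP_c23f48_an.BallRidge

open Pool.Agent.Lib.Pc23f48

variable {n : ℕ}

lemma evalEval_aeval (f : Fin n → ℂ[X][X]) (a b : ℂ) (τ : MvPolynomial (Fin n) ℂ) :
    evalEval a b (MvPolynomial.aeval f τ) = MvPolynomial.eval (fun k => evalEval a b (f k)) τ := by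
  induction τ using MvPolynomial.induction_on with
  | C z =>
    rw [MvPolynomial.aeval_C, MvPolynomial.eval_C]
    have : algebraMap ℂ ℂ[X][X] z = C (C z) := rfl
    rw [this]
    simp
  | add p q hp hq => rw [map_add, evalEval_add, hp, hq, map_add]
  | mul_X p k hp => rw [map_mul, evalEval_mul, hp, map_mul, MvPolynomial.aeval_X, MvPolynomial.eval_X]

lemma exists_slice (τ : MvPolynomial (Fin n) ℂ) (ξ₀ e u : E n) (c : ℂ) :
    ∃ Q : ℂ[X][X], ∀ t s : ℝ, qv Q t s = c * symb τ (ξ₀ + t • e + s • u) := by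
  refine ⟨C (C c) * MvPolynomial.aeval (fun k => C (C ((ξ₀ k : ℝ) : ℂ) + C ((e k : ℝ) : ℂ) * X) +
    C (C ((u k : ℝ) : ℂ)) * X) τ, fun t s => ?_⟩
  unfold qv symb
  rw [evalEval_mul, evalEval_aeval]
  congr 1
  · simp
  · congr 2
    ext k
    simp only [evalEval_add, evalEval_mul, evalEval_C, eval_add, eval_mul, eval_C, eval_X,
      evalEval_X, PiLp.add_apply, PiLp.smul_apply, smul_eq_mul]
    push_cast
    ring

lemma eval_aeval (f : Fin n → ℂ[X]) (a : ℂ) (τ : MvPolynomial (Fin n) ℂ) :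
    eval a (MvPolynomial.aeval f τ) = MvPolynomial.eval (fun k => eval a (f k)) τ := by
  induction τ using MvPolynomial.induction_on with
  | C z =>
    rw [MvPolynomial.aeval_C, MvPolynomial.eval_C]
    have : algebraMap ℂ ℂ[X] z = C z := rfl
    rw [this]
    simp
  | add p q hp hq => rw [map_add, eval_add, hp, hq, map_add]
  | mul_X p k hp => rw [map_mul, eval_mul, hp, map_mul, MvPolynomial.aeval_X, MvPolynomial.eval_X]

lemma exists_line (τ : MvPolynomial (Fin n) ℂ) (ξ : E n) :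
    ∃ P : ℂ[X], ∀ t : ℝ, eval (t : ℂ) P = symb τ (t • ξ) := by
  refine ⟨MvPolynomial.aeval (fun k => C ((ξ k : ℝ) : ℂ) * X) τ, fun t => ?_⟩
  unfold symb
  rw [eval_aeval]
  congr 2
  ext k
  simp
  ring

/-- polynomial identities extend from a ball along lines through the origin -/
lemma extend_from_ball (τ : MvPolynomial (Fin n) ℂ) {r : ℝ} (hr : 0 < r) (L : E n → E n)
    (hL : ∀ (t : ℝ) (ξ : E n), L (t • ξ) = t • L ξ)
    (h : ∀ ξ ∈ Metric.closedBall (0 : E n) r, symb τ ξ = symb τ (L ξ)) (ξ : E n) :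
    symb τ ξ = symb τ (L ξ) := by
  obtain ⟨P, hP⟩ := exists_line τ ξ
  obtain ⟨P', hP'⟩ := exists_line τ (L ξ)
  have h0 : P - P' = 0 := by
    apply Polynomial.eq_zero_of_infinite_isRoot
    have hinf : (Set.Ioo (0 : ℝ) (r / (‖ξ‖ + 1))).Infinite := Set.Ioo_infinite (by positivity)
    refine (hinf.image (f := fun t : ℝ => (t : ℂ)) (Complex.ofReal_injective.injOn)).mono ?_
    rintro _ ⟨t, ht, rfl⟩
    change (P - P').IsRoot (t : ℂ)
    rw [IsRoot, eval_sub, hP, hP', sub_eq_zero, ← hL]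
    apply h
    rw [mem_closedBall_zero_iff, norm_smul, Real.norm_eq_abs, abs_of_pos ht.1]
    have h1 := ht.2.le
    rw [le_div_iff₀ (by positivity)] at h1
    nlinarith [norm_nonneg ξ, ht.1]
  have h1 := hP 1
  have h2 := hP' 1
  rw [one_smul] at h1 h2
  rw [← h1, ← h2, sub_eq_zero.1 h0]

/-- geometry: one-sided parabolic region inside the ball -/
lemma region {r a : ℝ} (hr : 0 < r) (ha0 : 0 ≤ a) (har : a ≤ r) :
    ∃ c₀ : ℝ, 0 < c₀ ∧ ∀ t s : ℝ, -c₀ ≤ t → t < -(1 / r * s ^ 2) → (a + t) ^ 2 + s ^ 2 ≤ r ^ 2 := by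
  rcases har.eq_or_lt with h | h
  · refine ⟨r, hr, fun t s ht hts => ?_⟩
    have h1 : s ^ 2 ≤ -t * r := by
      have h2 : 1 / r * s ^ 2 ≤ -t := by linarith
      rw [one_div, inv_mul_eq_div, div_le_iff₀ hr] at h2
      exact h2
    subst h
    nlinarith [sq_nonneg s, mul_nonneg (by linarith : 0 ≤ a + t) (by nlinarith [sq_nonneg s] : 0 ≤ -t * a)]
  · refine ⟨(r - a) / 2, by linarith, fun t s ht hts => ?_⟩
    have h1 : s ^ 2 ≤ -t * r := by
      have h2 : 1 / r * s ^ 2 ≤ -t := by linarith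
      rw [one_div, inv_mul_eq_div, div_le_iff₀ hr] at h2
      exact h2
    have ht0 : t ≤ 0 := by
      have : 0 ≤ 1 / r * s ^ 2 := by positivity
      linarith
    have h3 : -t * r ≤ (r - a) / 2 * r := by nlinarith
    rcases le_or_gt 0 (a + t) with h4 | h4
    · have h5 : (a + t) ^ 2 ≤ a ^ 2 := by nlinarith
      nlinarith [mul_nonneg (by linarith : 0 ≤ 2 * a + r) (by linarith : 0 ≤ r - a)]
    · have h5 : (a + t) ^ 2 ≤ ((r - a) / 2) ^ 2 := by nlinarith
      nlinarith [mul_nonneg ha0 (by linarith : 0 ≤ r - a)]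

/-- If the norm of `τ(D)` on `B(K)` equals `max_K |τ|` for one closed ball `K` centred at the
origin, then `τ` is a ridge polynomial. -/
theorem result : ∀ n : ℕ, 1 ≤ n → ∀ (τ : MvPolynomial (Fin n) ℂ) (r : ℝ), 0 < r →
    opNorm τ (Metric.closedBall (0 : E n) r) =
      ⨆ ξ ∈ Metric.closedBall (0 : E n) r, ‖symb τ ξ‖ₑ →
    IsRidge τ := by
  intro n hn τ r hr hyp
  have hnz : NeZero n := ⟨by omega⟩
  -- maximum point
  obtain ⟨ξ₀, hξ₀, hmax⟩ := (isCompact_closedBall (0 : E n) r).exists_isMaxOn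
    ⟨0, by simpa using hr.le⟩ ((continuous_symb τ).norm.continuousOn)
  have hξ : ‖ξ₀‖ ≤ r := by simpa using hξ₀
  have hnorm : opNorm τ (Metric.closedBall 0 r) ≤ ‖symb τ ξ₀‖ₑ := by
    rw [hyp]
    refine iSup₂_le fun ξ hξ => ?_
    rw [enorm_le_iff_norm_le]
    exact hmax hξ
  -- reduce to invariance
  suffices hinv : ∃ e : E n, ∀ ξ, symb τ ξ = symb τ ((inner ℝ e ξ : ℝ) • e) by
    obtain ⟨e, he⟩ := hinv
    obtain ⟨ρ, hρ⟩ := exists_line τ e
    exact ⟨e, ρ, fun ξ => by rw [hρ, ← he]⟩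
  by_cases hne : symb τ ξ₀ = 0
  · refine ⟨0, fun ξ => ?_⟩
    rw [inner_zero_left, zero_smul]
    have hz : ∀ ξ ∈ Metric.closedBall (0 : E n) r, symb τ ξ = 0 := by
      intro ξ hξ
      have h1 : ‖symb τ ξ‖ ≤ ‖symb τ ξ₀‖ := hmax hξ
      rw [hne, norm_zero] at h1
      exact norm_le_zero_iff.1 h1
    apply extend_from_ball τ hr (fun _ => 0) (fun t ξ => by simp)
    intro ξ hξ
    rw [hz ξ hξ, hz 0 (by simpa using hr.le)]
  -- direction of the maximum point
  obtain ⟨e, he1, hea⟩ : ∃ e : E n, ‖e‖ = 1 ∧ ξ₀ = ‖ξ₀‖ • e := by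
    by_cases h0 : ξ₀ = 0
    · refine ⟨EuclideanSpace.single ⟨0, hn⟩ 1, by simp, by simp [h0]⟩
    · refine ⟨(‖ξ₀‖)⁻¹ • ξ₀, ?_, ?_⟩
      · rw [norm_smul, norm_inv, norm_norm, inv_mul_cancel₀ (norm_ne_zero_iff.2 h0)]
      · rw [smul_smul, mul_inv_cancel₀ (norm_ne_zero_iff.2 h0), one_smul]
  have hee : (inner ℝ e e : ℝ) = 1 := by rw [real_inner_self_eq_norm_sq, he1]; norm_num
  obtain ⟨μ, hμf, hμ⟩ := exists_repr hr hξ hne hnorm
  obtain ⟨c₀, hc₀, hregion⟩ := region hr (norm_nonneg ξ₀) hξ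
  -- orthogonal components vanish
  have hunit : ∀ u : E n, ‖u‖ = 1 → (inner ℝ e u : ℝ) = 0 → ∀ᵐ x ∂μ, (inner ℝ x u : ℝ) = 0 := by
    intro u hu heu
    obtain ⟨Q, hQ⟩ := exists_slice τ ξ₀ e u (symb τ ξ₀)⁻¹
    have huu : (inner ℝ u u : ℝ) = 1 := by rw [real_inner_self_eq_norm_sq, hu]; norm_num
    apply inner_ae_zero (Q.natDegree + 1) Q
      (Polynomial.iterate_derivative_eq_zero (Nat.lt_succ_self _)) μ e u c₀ (1 / r) hc₀
      (by positivity)
    intro t s ht hts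
    unfold phi
    have h1 : t • e + s • u = (ξ₀ + t • e + s • u) - ξ₀ := by abel
    rw [h1, hμ, hQ, div_eq_inv_mul]
    rw [mem_closedBall_zero_iff]
    have h2 : ‖ξ₀ + t • e + s • u‖ ^ 2 = (‖ξ₀‖ + t) ^ 2 + s ^ 2 := by
      have h3 : ξ₀ + t • e + s • u = (‖ξ₀‖ + t) • e + s • u := by
        conv_lhs => rw [hea]
        rw [add_smul]
      rw [h3, ← real_inner_self_eq_norm_sq, inner_add_left, inner_add_right, inner_add_right,
        inner_smul_left, inner_smul_left, inner_smul_right, inner_smul_right, inner_smul_left,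
        inner_smul_right, inner_smul_left, inner_smul_right, hee, huu, heu, real_inner_comm, heu]
      simp
      ring
    have h4 := hregion t s ht hts
    rw [← h2] at h4
    exact (pow_le_pow_iff_left₀ (norm_nonneg _) hr.le two_ne_zero).1 h4
  have horth : ∀ w : E n, (inner ℝ e w : ℝ) = 0 → ∀ᵐ x ∂μ, (inner ℝ x w : ℝ) = 0 := by
    intro w hw
    by_cases h0 : w = 0
    · refine Filter.Eventually.of_forall fun x => ?_
      rw [h0, inner_zero_right]
    · have hn0 : ‖w‖ ≠ 0 := norm_ne_zero_iff.2 h0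
      have h1 := hunit ((‖w‖)⁻¹ • w) (by rw [norm_smul, norm_inv, norm_norm, inv_mul_cancel₀ hn0])
        (by rw [inner_smul_right, hw, mul_zero])
      filter_upwards [h1] with x hx
      rw [inner_smul_right] at hx
      rcases mul_eq_zero.1 hx with h | h
      · exact absurd h (inv_ne_zero hn0)
      · exact h
  refine ⟨e, fun ξ => ?_⟩
  apply extend_from_ball τ hr (fun ξ => (inner ℝ e ξ : ℝ) • e)
    (fun t ξ => by rw [inner_smul_right, smul_smul])
  intro ξ hξK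
  have hξr : ‖ξ‖ ≤ r := by simpa using hξK
  obtain ⟨w, hw⟩ : ∃ w : E n, w = ξ - (inner ℝ e ξ : ℝ) • e := ⟨_, rfl⟩
  have hew : (inner ℝ e w : ℝ) = 0 := by
    rw [hw, inner_sub_right, inner_smul_right, hee]; ring
  have hmem : (inner ℝ e ξ : ℝ) • e ∈ Metric.closedBall (0 : E n) r := by
    rw [mem_closedBall_zero_iff, norm_smul, he1, mul_one]
    refine (abs_real_inner_le_norm e ξ).trans ?_
    rw [he1, one_mul]
    exact hξr
  have h1 := hμ ξ hξK
  have h2 := hμ _ hmem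
  have h3 : charFun μ (ξ - ξ₀) = charFun μ ((inner ℝ e ξ : ℝ) • e - ξ₀) := by
    rw [charFun_apply, charFun_apply]
    apply integral_congr_ae
    filter_upwards [horth w hew] with x hx
    have h4 : ξ - ξ₀ = ((inner ℝ e ξ : ℝ) • e - ξ₀) + w := by rw [hw]; abel
    rw [h4, inner_add_right, hx, add_zero]
  rw [h1, h2] at h3
  field_simp at h3
  exact h3

end Pool.Agent.Results.MP_c23f48_an.BallRidge
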